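import Mathlib
import Pool.Agent.H84.UqDefs
import Pool.Agent.H84.UqEx

set_option autoImplicit false

namespace Pool.Agent.Results.MP_1d6438_gt.Counter

open Pool.Agent.H84.UqDefs

theorem result : ∃ (X Y : Type) (_ : MetricSpace X) (_ : MetricSpace Y),
    Nonempty X ∧ Nonempty Y ∧ IsClosed (distSet X) ∧ IsDiscrete (distSet X) ∧
      ghE X Y = 0 ∧ IsEmpty (X ≃ᵢ Y) :=
  open Pool.Agent.H84.UqEx in
  ⟨X 0, X 1, inferInstance, inferInstance, ⟨.inl 0⟩, ⟨.inl 0⟩, cd.1, cd.2, gh0, noIso⟩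

end Pool.Agent.Results.MP_1d6438_gt.Counter
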